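import Mathlib

set_option autoImplicit false

/-!
# MP_490dbb_co: inversions of the `2143`-avoiding linear extensions of `EN_{s,2}`

Write `O_q = 2q`, `E_q = 2q + 1` (`0 ≤ q < s`) for the elements.  A linear extension lists
`O_{s-1}, …, O_0` and `E_{s-1}, …, E_0` in these orders, with `O_q` before `E_q`.  It avoids `2143`
iff `E_q` precedes `O_{q-2}` for all `q ≥ 2`.  So it is determined by the set `S` of the
`q ∈ {1, …, s-1}` for which `O_{q-1}` precedes `E_q`, all sets occur, and the pairs that are not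
inversions are the `(O_q, E_q)` and the `(O_{q-1}, E_q)` with `q ∈ S`.
-/

open Polynomial

namespace Pool.Agent.Results.MP_490dbb_co.TwoColumns

/-- The order `x ⪯ y` of the poset `EN_{s,t}`, for elements numbered from `0`: writing
`x = q(x) t + r(x)` with `0 ≤ r(x) < t`, it is `r(x) ≤ r(y)` and `q(x) ≥ q(y)`. -/
def Below (t x y : ℕ) : Prop := x % t ≤ y % t ∧ y / t ≤ x / t

instance (t x y : ℕ) : Decidable (Below t x y) := by
  unfold Below
  infer_instance

/-- `π` (in one-line notation, positions and values numbered from `0`) is a linear extension of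
`EN_{s,t}`: `π(i) ⪯ π(j)` implies `i ≤ j`. -/
def IsLinearExtension {s t : ℕ} (π : Equiv.Perm (Fin (s * t))) : Prop :=
  ∀ i j, Below t (π i) (π j) → i ≤ j

/-- `π` avoids the pattern `2143`. -/
def Avoids2143 {n : ℕ} (π : Equiv.Perm (Fin n)) : Prop :=
  ∀ i j k l, i < j → j < k → k < l → ¬ (π j < π i ∧ π i < π l ∧ π l < π k)

/-- The number of inversions of `π`. -/
def inv {n : ℕ} (π : Equiv.Perm (Fin n)) : ℕ :=
  (Finset.univ.filter fun p : Fin n × Fin n => p.1 < p.2 ∧ π p.2 < π p.1).card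

/-- The inversion polynomial `EN_{s,t}(2143)(q)` of the `2143`-avoiding linear extensions. -/
noncomputable def EN2143 (s t : ℕ) : ℕ[X] := by
  classical
  exact ∑ π ∈ Finset.univ.filter
    fun π : Equiv.Perm (Fin (s * t)) => IsLinearExtension π ∧ Avoids2143 π, X ^ inv π

/-! ### The time function of a set `S` -/

/-- the time at which `x` is listed -/
def F (s : ℕ) (S : Finset ℕ) (x : ℕ) : ℕ :=
  if x % 2 = 0 then 4 * (s - x / 2) else if x / 2 ∈ S then 4 * (s - x / 2) + 5 else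
    4 * (s - x / 2) + 2

theorem F_cases (s : ℕ) (S : Finset ℕ) (x : ℕ) :
    (x % 2 = 0 ∧ F s S x = 4 * (s - x / 2)) ∨
    (x % 2 = 1 ∧ x / 2 ∈ S ∧ F s S x = 4 * (s - x / 2) + 5) ∨
    (x % 2 = 1 ∧ x / 2 ∉ S ∧ F s S x = 4 * (s - x / 2) + 2) := by
  unfold F
  split_ifs with h1 h2
  · left; exact ⟨h1, rfl⟩
  · right; left; exact ⟨by omega, h2, rfl⟩
  · right; right; exact ⟨by omega, h2, rfl⟩

theorem F_inj (s : ℕ) (S : Finset ℕ) (x y : ℕ) (hx : x < s * 2) (hy : y < s * 2)
    (h : F s S x = F s S y) : x = y := by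
  rcases F_cases s S x with ⟨h1, h2⟩ | ⟨h1, h3, h2⟩ | ⟨h1, h3, h2⟩ <;>
  rcases F_cases s S y with ⟨h4, h5⟩ | ⟨h4, h6, h5⟩ | ⟨h4, h6, h5⟩ <;> omega

/-- the set of a permutation -/
noncomputable def bits {s : ℕ} (π : Equiv.Perm (Fin (s * 2))) : Finset ℕ := by
  classical
  exact (Finset.Ico 1 s).filter fun q => ∃ i j, i < j ∧ (π i : ℕ) = 2 * (q - 1) ∧
    (π j : ℕ) = 2 * q + 1

theorem mem_bits {s : ℕ} (π : Equiv.Perm (Fin (s * 2))) (q : ℕ) : q ∈ bits π ↔
    (1 ≤ q ∧ q < s) ∧ ∃ i j, i < j ∧ (π i : ℕ) = 2 * (q - 1) ∧ (π j : ℕ) = 2 * q + 1 := by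
  simp [bits]

theorem exists_pos {s : ℕ} (π : Equiv.Perm (Fin (s * 2))) (x : ℕ) (hx : x < s * 2) :
    ∃ i, (π i : ℕ) = x := ⟨π.symm ⟨x, hx⟩, by simp⟩

theorem pos_unique {s : ℕ} (π : Equiv.Perm (Fin (s * 2))) (i j : Fin (s * 2))
    (h : (π i : ℕ) = (π j : ℕ)) : i = j := π.injective (Fin.ext h)

/-- for a `2143`-avoiding linear extension the positions are ordered as the times -/
theorem lt_of_F_lt {s : ℕ} (π : Equiv.Perm (Fin (s * 2))) (h1 : IsLinearExtension π)
    (h2 : Avoids2143 π) (i j : Fin (s * 2))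
    (h : F s (bits π) (π i) < F s (bits π) (π j)) : i < j := by
  have hi := (π i).isLt
  have hj := (π j).isLt
  have hne : i ≠ j := by
    rintro rfl
    exact lt_irrefl _ h
  have hle : Below 2 (π i) (π j) → i < j := fun hb => lt_of_le_of_ne (h1 i j hb) hne
  rcases F_cases s (bits π) (π i) with ⟨a1, a2⟩ | ⟨a1, a3, a2⟩ | ⟨a1, a3, a2⟩ <;>
  rcases F_cases s (bits π) (π j) with ⟨b1, b2⟩ | ⟨b1, b3, b2⟩ | ⟨b1, b3, b2⟩
  · exact hle ⟨by omega, by omega⟩
  · -- `O_a`, `E_b`, bit on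
    by_cases hab : (π j : ℕ) / 2 ≤ (π i : ℕ) / 2
    · exact hle ⟨by omega, hab⟩
    · obtain ⟨_, i', j', hij, hi', hj'⟩ := (mem_bits π _).1 b3
      have e1 : i' = i := pos_unique π _ _ (by omega)
      have e2 : j' = j := pos_unique π _ _ (by omega)
      rw [← e1, ← e2]
      exact hij
  · exact hle ⟨by omega, by omega⟩
  · -- `E_a`, `O_b`, bit on
    by_contra hc
    have hji : j < i := lt_of_le_of_ne (not_lt.1 hc) (Ne.symm hne)
    obtain ⟨⟨hq1, hq2⟩, i', j', hij, hi', hj'⟩ := (mem_bits π _).1 a3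
    obtain ⟨l, hl⟩ := exists_pos π (2 * ((π i : ℕ) / 2) - 1) (by omega)
    have e2 : j' = i := pos_unique π _ _ (by omega)
    have h3 : i' < j := by
      refine lt_of_le_of_ne (h1 i' j ⟨by omega, by omega⟩) ?_
      rintro rfl
      omega
    have h4 : i < l := by
      refine lt_of_le_of_ne (h1 i l ⟨by omega, by omega⟩) ?_
      rintro rfl
      omega
    refine h2 i' j i l h3 hji h4 ⟨?_, ?_, ?_⟩
    · rw [Fin.lt_def]; omega
    · rw [Fin.lt_def]; omega
    · rw [Fin.lt_def]; omega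
  · exact hle ⟨by omega, by omega⟩
  · exact hle ⟨by omega, by omega⟩
  · -- `E_a`, `O_b`, bit off
    have hq : (π j : ℕ) / 2 < (π i : ℕ) / 2 := by omega
    obtain ⟨i', hi'⟩ := exists_pos π (2 * ((π i : ℕ) / 2 - 1)) (by omega)
    have h3 : ¬ i' < i := by
      intro hlt
      exact a3 ((mem_bits π _).2 ⟨⟨by omega, by omega⟩, i', i, hlt, hi', by omega⟩)
    have h4 : i' ≤ j := h1 i' j ⟨by omega, by omega⟩
    have h5 : i ≠ i' := by
      rintro rfl
      omega
    exact lt_of_lt_of_le (lt_of_le_of_ne (not_lt.1 h3) h5) h4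
  · exact hle ⟨by omega, by omega⟩
  · exact hle ⟨by omega, by omega⟩

/-- the permutation of a set -/
noncomputable def perm (s : ℕ) (S : Finset ℕ) : Equiv.Perm (Fin (s * 2)) :=
  Tuple.sort fun x : Fin (s * 2) => F s S x

theorem perm_lt (s : ℕ) (S : Finset ℕ) (i j : Fin (s * 2)) (h : i < j) :
    F s S (perm s S i) < F s S (perm s S j) := by
  have h1 := Tuple.monotone_sort (fun x : Fin (s * 2) => F s S x) h.le
  refine lt_of_le_of_ne h1 fun h2 => h.ne ?_
  exact pos_unique (perm s S) _ _ (F_inj s S _ _ (Fin.isLt _) (Fin.isLt _) h2)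

theorem lt_of_perm (s : ℕ) (S : Finset ℕ) (i j : Fin (s * 2))
    (h : F s S (perm s S i) < F s S (perm s S j)) : i < j := by
  by_contra hc
  rcases (not_lt.1 hc).lt_or_eq with h1 | h1
  · exact lt_asymm h (perm_lt s S j i h1)
  · rw [h1] at h
    exact lt_irrefl _ h

theorem perm_unique (s : ℕ) (S : Finset ℕ) (π : Equiv.Perm (Fin (s * 2)))
    (h : ∀ i j, F s S (π i) < F s S (π j) → i < j) : perm s S = π := by
  have hmono : Monotone ((fun x : Fin (s * 2) => F s S x) ∘ π) := by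
    intro i j hij
    by_contra hc
    exact absurd (h j i (not_le.1 hc)) (not_lt.2 hij)
  have h1 := Tuple.unique_monotone (Tuple.monotone_sort (fun x : Fin (s * 2) => F s S x)) hmono
  ext i
  have h2 := congrFun h1 i
  exact F_inj s S _ _ (Fin.isLt _) (Fin.isLt _) h2

theorem perm_linear (s : ℕ) (S : Finset ℕ) : IsLinearExtension (perm s S) := by
  intro i j ⟨h1, h2⟩
  by_contra hc
  have h3 := perm_lt s S j i (not_le.1 hc)
  have hi := (perm s S i).isLt
  have hj := (perm s S j).isLt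
  rcases F_cases s S (perm s S i) with ⟨a1, a2⟩ | ⟨a1, a3, a2⟩ | ⟨a1, a3, a2⟩ <;>
  rcases F_cases s S (perm s S j) with ⟨b1, b2⟩ | ⟨b1, b3, b2⟩ | ⟨b1, b3, b2⟩ <;>
  first
  | omega
  | (have h4 : (perm s S i : ℕ) / 2 = (perm s S j : ℕ) / 2 := by omega
     rw [h4] at a3
     exact absurd b3 a3)
  | (have h4 : (perm s S i : ℕ) / 2 = (perm s S j : ℕ) / 2 := by omega
     rw [h4] at a3
     exact absurd a3 b3)

theorem perm_avoids (s : ℕ) (S : Finset ℕ) : Avoids2143 (perm s S) := by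
  rintro i j k l hij hjk hkl ⟨h1, h2, h3⟩
  have f1 := perm_lt s S i j hij
  have f2 := perm_lt s S j k hjk
  have f3 := perm_lt s S k l hkl
  rw [Fin.lt_def] at h1 h2 h3
  have hi := (perm s S i).isLt
  have hj := (perm s S j).isLt
  have hk := (perm s S k).isLt
  have hl := (perm s S l).isLt
  have key : ∀ x y : ℕ, x < s * 2 → y < s * 2 → x < y → F s S x < F s S y →
      x % 2 = 0 ∧ y % 2 = 1 ∧ y / 2 ≤ x / 2 + 1 := by
    intro x y hx hy hxy hF
    rcases F_cases s S x with ⟨a1, a2⟩ | ⟨a1, a3, a2⟩ | ⟨a1, a3, a2⟩ <;>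
    rcases F_cases s S y with ⟨b1, b2⟩ | ⟨b1, b3, b2⟩ | ⟨b1, b3, b2⟩ <;> omega
  have k1 := key _ _ hi hl h2 (f1.trans (f2.trans f3))
  have k2 := key _ _ hj hk (by omega) f2
  omega

theorem bits_perm (s : ℕ) (S : Finset ℕ) (hS : S ⊆ Finset.Ico 1 s) : bits (perm s S) = S := by
  ext q
  rw [mem_bits]
  constructor
  · rintro ⟨⟨hq1, hq2⟩, i, j, hij, hi, hj⟩
    have h := perm_lt s S i j hij
    rcases F_cases s S (perm s S i) with ⟨a1, a2⟩ | ⟨a1, a3, a2⟩ | ⟨a1, a3, a2⟩ <;>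
    rcases F_cases s S (perm s S j) with ⟨b1, b2⟩ | ⟨b1, b3, b2⟩ | ⟨b1, b3, b2⟩ <;>
    first
    | omega
    | (have h4 : (perm s S j : ℕ) / 2 = q := by omega
       rw [h4] at b3
       exact b3)
  · intro hq
    have hq' := Finset.mem_Ico.1 (hS hq)
    refine ⟨hq', ?_⟩
    obtain ⟨i, hi⟩ := exists_pos (perm s S) (2 * (q - 1)) (by omega)
    obtain ⟨j, hj⟩ := exists_pos (perm s S) (2 * q + 1) (by omega)
    refine ⟨i, j, lt_of_perm s S i j ?_, hi, hj⟩
    rw [hi, hj]
    have e1 : F s S (2 * (q - 1)) = 4 * (s - (q - 1)) := by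
      unfold F
      rw [if_pos (by omega)]
      congr 2
      omega
    have e2 : F s S (2 * q + 1) = 4 * (s - q) + 5 := by
      have h0 : (2 * q + 1) / 2 = q := by omega
      unfold F
      rw [if_neg (by omega), h0, if_pos hq]
    omega

/-! ### Counting inversions -/

theorem card_lt (n : ℕ) :
    (Finset.univ.filter fun p : Fin n × Fin n => p.1 < p.2).card * 2 = n * (n - 1) := by
  have h : (Finset.univ.filter fun p : Fin n × Fin n => p.1 < p.2).card = ∑ j ∈ Finset.range n, j := by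
    rw [Finset.card_filter, Fintype.sum_prod_type, Finset.sum_comm, Finset.sum_range]
    refine Finset.sum_congr rfl fun j _ => ?_
    rw [← Finset.card_filter]
    have : (Finset.univ.filter fun i : Fin n => i < j) = Finset.Iio j := by
      ext i
      simp
    rw [this, Fin.card_Iio]
  rw [h, Finset.sum_range_id_mul_two]

/-- the pairs of values that are not inverted -/
theorem image_noninv (s : ℕ) (S : Finset ℕ) (hS : S ⊆ Finset.Ico 1 s) :
    ((Finset.univ.filter fun p : Fin (s * 2) × Fin (s * 2) =>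
      p.1 < p.2 ∧ ¬ (perm s S p.2 < perm s S p.1)).image
        fun p => ((perm s S p.1 : ℕ), (perm s S p.2 : ℕ))) =
    (Finset.range s).image (fun a => (2 * a, 2 * a + 1)) ∪
      S.image (fun b => (2 * (b - 1), 2 * b + 1)) := by
  ext ⟨x, y⟩
  simp only [Finset.mem_image, Finset.mem_filter, Finset.mem_univ, true_and, Finset.mem_union,
    Finset.mem_range, Prod.mk.injEq, Prod.exists]
  constructor
  · rintro ⟨i, j, ⟨hij, hn⟩, rfl, rfl⟩
    have h := perm_lt s S i j hij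
    have hne : (perm s S i : ℕ) ≠ (perm s S j : ℕ) := fun he => hij.ne (pos_unique _ _ _ he)
    rw [Fin.lt_def] at hn
    have hi := (perm s S i).isLt
    have hj := (perm s S j).isLt
    rcases F_cases s S (perm s S i) with ⟨a1, a2⟩ | ⟨a1, a3, a2⟩ | ⟨a1, a3, a2⟩ <;>
    rcases F_cases s S (perm s S j) with ⟨b1, b2⟩ | ⟨b1, b3, b2⟩ | ⟨b1, b3, b2⟩
    · omega
    · by_cases he : (perm s S i : ℕ) / 2 = (perm s S j : ℕ) / 2
      · left
        exact ⟨(perm s S i : ℕ) / 2, by omega, by omega, by omega⟩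
      · right
        exact ⟨(perm s S j : ℕ) / 2, b3, by omega, by omega⟩
    · left
      exact ⟨(perm s S i : ℕ) / 2, by omega, by omega, by omega⟩
    all_goals omega
  · rintro (⟨a, ha, rfl, rfl⟩ | ⟨b, hb, rfl, rfl⟩)
    · obtain ⟨i, hi⟩ := exists_pos (perm s S) (2 * a) (by omega)
      obtain ⟨j, hj⟩ := exists_pos (perm s S) (2 * a + 1) (by omega)
      refine ⟨i, j, ⟨lt_of_perm s S i j ?_, ?_⟩, hi, hj⟩
      · rw [hi, hj]
        rcases F_cases s S (2 * a) with ⟨a1, a2⟩ | ⟨a1, a3, a2⟩ | ⟨a1, a3, a2⟩ <;>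
        rcases F_cases s S (2 * a + 1) with ⟨b1, b2⟩ | ⟨b1, b3, b2⟩ | ⟨b1, b3, b2⟩ <;> omega
      · rw [Fin.lt_def]
        omega
    · have hb' := Finset.mem_Ico.1 (hS hb)
      obtain ⟨i, hi⟩ := exists_pos (perm s S) (2 * (b - 1)) (by omega)
      obtain ⟨j, hj⟩ := exists_pos (perm s S) (2 * b + 1) (by omega)
      refine ⟨i, j, ⟨lt_of_perm s S i j ?_, ?_⟩, hi, hj⟩
      · rw [hi, hj]
        have h0 : (2 * b + 1) / 2 = b := by omega
        rcases F_cases s S (2 * (b - 1)) with ⟨a1, a2⟩ | ⟨a1, a3, a2⟩ | ⟨a1, a3, a2⟩ <;>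
        rcases F_cases s S (2 * b + 1) with ⟨b1, b2⟩ | ⟨b1, b3, b2⟩ | ⟨b1, b3, b2⟩ <;>
        first
        | omega
        | (rw [h0] at b3; exact absurd hb b3)
      · rw [Fin.lt_def]
        omega

theorem card_noninv (s : ℕ) (S : Finset ℕ) (hS : S ⊆ Finset.Ico 1 s) :
    (Finset.univ.filter fun p : Fin (s * 2) × Fin (s * 2) =>
      p.1 < p.2 ∧ ¬ (perm s S p.2 < perm s S p.1)).card = s + S.card := by
  rw [← Finset.card_image_of_injective _ (f := fun p : Fin (s * 2) × Fin (s * 2) =>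
    ((perm s S p.1 : ℕ), (perm s S p.2 : ℕ))), image_noninv s S hS, Finset.card_union_of_disjoint,
    Finset.card_image_of_injective, Finset.card_image_of_injOn, Finset.card_range]
  · intro a _ b _ h
    simp only [Prod.mk.injEq] at h
    omega
  · intro a b h
    simp only [Prod.mk.injEq] at h
    omega
  · rw [Finset.disjoint_left]
    rintro ⟨x, y⟩ h1 h2
    simp only [Finset.mem_image, Prod.mk.injEq] at h1 h2
    obtain ⟨a, ha, h3, h4⟩ := h1
    obtain ⟨b, hb, h5, h6⟩ := h2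
    have hb' := Finset.mem_Ico.1 (hS hb)
    omega
  · rintro ⟨a, b⟩ ⟨c, d⟩ h
    simp only [Prod.mk.injEq] at h
    exact Prod.ext (pos_unique _ _ _ h.1) (pos_unique _ _ _ h.2)

theorem inv_perm (s : ℕ) (hs : 1 ≤ s) (S : Finset ℕ) (hS : S ⊆ Finset.Ico 1 s) :
    inv (perm s S) = (2 * s - 1) * (s - 1) + ((Finset.Ico 1 s).card - S.card) := by
  have h1 : (Finset.univ.filter fun p : Fin (s * 2) × Fin (s * 2) => p.1 < p.2).card =
      inv (perm s S) + (s + S.card) := by
    rw [← card_noninv s S hS]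
    unfold inv
    rw [← Finset.filter_filter, ← Finset.filter_filter]
    exact (Finset.card_filter_add_card_filter_not _).symm
  have h2 := card_lt (s * 2)
  rw [h1] at h2
  have h3 : S.card ≤ s - 1 := by
    have := Finset.card_le_card hS
    simpa using this
  rw [Nat.card_Ico]
  obtain ⟨r, rfl⟩ : ∃ r, s = r + 1 := ⟨s - 1, by omega⟩
  have e1 : 2 * (r + 1) - 1 = 2 * r + 1 := by omega
  have e2 : (r + 1) * 2 - 1 = 2 * r + 1 := by omega
  have e3 : r + 1 - 1 = r := by omega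
  rw [e2] at h2
  rw [e3] at h3 ⊢
  rw [e1]
  obtain ⟨c, hc⟩ : ∃ c, r = S.card + c := ⟨r - S.card, by omega⟩
  have e4 : r - S.card = c := by omega
  rw [e4]
  nlinarith

/-- **MP_490dbb_co, Q1, positive answer.**  For every `s ≥ 1`,
`EN_{s,2}(2143)(q) = q^((2s-1)(s-1)) (1+q)^(s-1)`. -/
theorem result (s : ℕ) (hs : 1 ≤ s) :
    EN2143 s 2 = X ^ ((2 * s - 1) * (s - 1)) * (1 + X) ^ (s - 1) := by
  classical
  have hsum : EN2143 s 2 = ∑ S ∈ (Finset.Ico 1 s).powerset,
      (X : ℕ[X]) ^ ((2 * s - 1) * (s - 1) + ((Finset.Ico 1 s).card - S.card)) := by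
    unfold EN2143
    refine Finset.sum_nbij' (fun π => bits π) (fun S => perm s S) ?_ ?_ ?_ ?_ ?_
    · intro π _
      rw [Finset.mem_powerset]
      intro q hq
      have := ((mem_bits π q).1 hq).1
      exact Finset.mem_Ico.2 this
    · intro S _
      simp only [Finset.mem_filter, Finset.mem_univ, true_and]
      exact ⟨perm_linear s S, perm_avoids s S⟩
    · intro π hπ
      simp only [Finset.mem_filter, Finset.mem_univ, true_and] at hπ
      exact perm_unique s (bits π) π (lt_of_F_lt π hπ.1 hπ.2)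
    · intro S hS
      exact bits_perm s S (Finset.mem_powerset.1 hS)
    · intro π hπ
      simp only [Finset.mem_filter, Finset.mem_univ, true_and] at hπ
      have h1 := perm_unique s (bits π) π (lt_of_F_lt π hπ.1 hπ.2)
      have h2 : bits π ⊆ Finset.Ico 1 s := by
        intro q hq
        exact Finset.mem_Ico.2 ((mem_bits π q).1 hq).1
      have h3 := inv_perm s hs (bits π) h2
      rw [h1] at h3
      rw [h3]
  rw [hsum]
  have h := Finset.sum_pow_mul_eq_add_pow (1 : ℕ[X]) X (Finset.Ico 1 s)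
  rw [Nat.card_Ico] at h
  rw [← h, Finset.mul_sum]
  refine Finset.sum_congr rfl fun S _ => ?_
  rw [one_pow, one_mul, pow_add, Nat.card_Ico]

end Pool.Agent.Results.MP_490dbb_co.TwoColumns
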